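import Pool.Agent.L0h79.AJ.Stm

/-!
# Two coprime integer polynomials are not both small at a point
-/

set_option autoImplicit false

namespace Pool.Agent.L0h10.AJ

open Polynomial

lemma syl_left (F G : ℤ[X]) (i : Fin (F.natDegree + G.natDegree)) (j : Fin F.natDegree) :
    sylvester F G F.natDegree G.natDegree i (Fin.castAdd G.natDegree j) =
      ((X : ℤ[X]) ^ (j : ℕ) * G).coeff (i : ℕ) := by
  rw [coeff_X_pow_mul']
  simp only [sylvester, Matrix.of_apply, Fin.addCases_left, Set.mem_Icc]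
  by_cases h1 : (j : ℕ) ≤ i
  · by_cases h2 : (i : ℕ) ≤ j + G.natDegree
    · rw [if_pos ⟨h1, h2⟩, if_pos h1]
    · rw [if_neg (fun h => h2 h.2), if_pos h1]
      exact (coeff_eq_zero_of_natDegree_lt (by omega)).symm
  · rw [if_neg (fun h => h1 h.1), if_neg h1]

lemma syl_right (F G : ℤ[X]) (i : Fin (F.natDegree + G.natDegree)) (j : Fin G.natDegree) :
    sylvester F G F.natDegree G.natDegree i (Fin.natAdd F.natDegree j) =
      ((X : ℤ[X]) ^ (j : ℕ) * F).coeff (i : ℕ) := by
  rw [coeff_X_pow_mul']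
  simp only [sylvester, Matrix.of_apply, Fin.addCases_right, Set.mem_Icc]
  by_cases h1 : (j : ℕ) ≤ i
  · by_cases h2 : (i : ℕ) ≤ j + F.natDegree
    · rw [if_pos ⟨h1, h2⟩, if_pos h1]
    · rw [if_neg (fun h => h2 h.2), if_pos h1]
      exact (coeff_eq_zero_of_natDegree_lt (by omega)).symm
  · rw [if_neg (fun h => h1 h.1), if_neg h1]

/-- the value of a polynomial from its coefficients -/
lemma sum_fin (P : ℤ[X]) (z : ℝ) {N : ℕ} (h : P.natDegree < N) :
    ∑ i : Fin N, z ^ (i : ℕ) * ((P.coeff (i : ℕ) : ℤ) : ℝ) = aeval z P := by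
  rw [Fin.sum_univ_eq_sum_range (fun i => z ^ i * ((P.coeff i : ℤ) : ℝ)) N,
    aeval_eq_sum_range' h]
  refine Finset.sum_congr rfl fun i _ => ?_
  rw [zsmul_eq_mul, mul_comm]

lemma nat_le_mul (F G : ℤ[X]) (j : ℕ) (hj : j < F.natDegree) :
    ((X : ℤ[X]) ^ j * G).natDegree < F.natDegree + G.natDegree := by
  have h := natDegree_mul_le (p := (X : ℤ[X]) ^ j) (q := G)
  have h2 := natDegree_X_pow_le (R := ℤ) j
  omega

lemma entry_le {F G : ℤ[X]} {Y : ℝ} (hY : 1 ≤ Y) (hF : ∀ i, |(F.coeff i : ℝ)| ≤ Y)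
    (hG : ∀ i, |(G.coeff i : ℝ)| ≤ Y) (i j : Fin (F.natDegree + G.natDegree)) :
    |((sylvester F G F.natDegree G.natDegree i j : ℤ) : ℝ)| ≤ Y := by
  have h0 : (0 : ℝ) ≤ Y := by linarith
  refine Fin.addCases (fun j => ?_) (fun j => ?_) j
  · rw [syl_left, coeff_X_pow_mul']
    split_ifs
    · exact hG _
    · simpa using h0
  · rw [syl_right, coeff_X_pow_mul']
    split_ifs
    · exact hF _
    · simpa using h0

/-- The inequality for the resultant. -/
lemma det_bound (F G : ℤ[X]) (z Y : ℝ) (d : ℕ) (hY : 1 ≤ Y) (hF : ∀ i, |(F.coeff i : ℝ)| ≤ Y)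
    (hG : ∀ i, |(G.coeff i : ℝ)| ≤ Y) (hFd : F.natDegree ≤ d) (hGd : G.natDegree ≤ d)
    (hN : 0 < F.natDegree + G.natDegree) :
    |((resultant F G : ℤ) : ℝ)| ≤ ((2 * d : ℕ) : ℝ) * ((max 1 |z|) ^ d) * ((2 * d).factorial : ℝ) *
      Y ^ (2 * d) * max |aeval z F| |aeval z G| := by
  classical
  set N := F.natDegree + G.natDegree with hNd
  have hN2 : N ≤ 2 * d := by omega
  set S : Matrix (Fin N) (Fin N) ℤ := sylvester F G F.natDegree G.natDegree with hS
  set SR : Matrix (Fin N) (Fin N) ℝ := (Int.castRingHom ℝ).mapMatrix S with hSR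
  have hSRe : ∀ i j, SR i j = ((S i j : ℤ) : ℝ) := fun i j => rfl
  have hdet : ((resultant F G : ℤ) : ℝ) = SR.det := by
    rw [hSR, ← RingHom.map_det]
    rfl
  set v : Fin N → ℝ := fun i => z ^ (i : ℕ) with hv
  set M := max |aeval z F| |aeval z G| with hM
  have hM0 : 0 ≤ M := le_max_of_le_left (abs_nonneg _)
  set Z := (max 1 |z|) ^ d with hZ
  have hz1 : (1 : ℝ) ≤ max 1 |z| := le_max_left _ _
  have hZ1 : 1 ≤ Z := one_le_pow₀ hz1
  have hpow : ∀ j : ℕ, j ≤ d → |z| ^ j ≤ Z := fun j hj =>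
    (pow_le_pow_left₀ (abs_nonneg _) (le_max_right 1 |z|) j).trans (pow_le_pow_right₀ hz1 hj)
  -- the products with the columns
  have hcol : ∀ j, |(Matrix.vecMul v SR) j| ≤ Z * M := by
    intro j
    refine Fin.addCases (fun j => ?_) (fun j => ?_) j
    · have h1 : (Matrix.vecMul v SR) (Fin.castAdd G.natDegree j) = z ^ (j : ℕ) * aeval z G := by
        have h2 := sum_fin ((X : ℤ[X]) ^ (j : ℕ) * G) z (nat_le_mul F G j j.2)
        rw [map_mul, map_pow, aeval_X] at h2
        rw [← h2, Matrix.vecMul, dotProduct]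
        refine Finset.sum_congr rfl fun i _ => ?_
        rw [hSRe, ← syl_left F G i j]
      rw [h1, abs_mul, abs_pow]
      exact mul_le_mul (hpow _ (by omega)) (le_max_right _ _) (abs_nonneg _) (by linarith)
    · have h1 : (Matrix.vecMul v SR) (Fin.natAdd F.natDegree j) = z ^ (j : ℕ) * aeval z F := by
        have h3 : ((X : ℤ[X]) ^ (j : ℕ) * F).natDegree < F.natDegree + G.natDegree := by
          have := nat_le_mul G F j j.2
          omega
        have h2 := sum_fin ((X : ℤ[X]) ^ (j : ℕ) * F) z h3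
        rw [map_mul, map_pow, aeval_X] at h2
        rw [← h2, Matrix.vecMul, dotProduct]
        refine Finset.sum_congr rfl fun i _ => ?_
        rw [hSRe, ← syl_right F G i j]
      rw [h1, abs_mul, abs_pow]
      exact mul_le_mul (hpow _ (by omega)) (le_max_left _ _) (abs_nonneg _) (by linarith)
  -- the adjugate
  set i0 : Fin N := ⟨0, hN⟩ with hi0
  have hadj : ∀ j, |SR.adjugate j i0| ≤ ((2 * d).factorial : ℝ) * Y ^ (2 * d) := by
    intro j
    rw [Matrix.adjugate_apply]
    have h1 := Matrix.det_le (A := SR.updateRow i0 (Pi.single j 1)) (abv := AbsoluteValue.abs)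
      (x := Y) (fun a b => by
        rw [Matrix.updateRow_apply]
        split_ifs
        · rw [Pi.single_apply]
          split_ifs
          · simpa using hY
          · simpa using (by linarith : (0 : ℝ) ≤ Y)
        · rw [hSRe]
          exact entry_le hY hF hG a b)
    rw [Fintype.card_fin, nsmul_eq_mul] at h1
    refine h1.trans ?_
    have h2 : ((N.factorial : ℕ) : ℝ) ≤ ((2 * d).factorial : ℝ) := by
      exact_mod_cast Nat.factorial_le hN2
    exact mul_le_mul h2 (pow_le_pow_right₀ hY hN2) (by positivity) (by positivity)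
  -- the identity
  have hid : SR.det = ∑ j, (Matrix.vecMul v SR) j * SR.adjugate j i0 := by
    have h1 : Matrix.vecMul (Matrix.vecMul v SR) SR.adjugate = SR.det • v := by
      rw [Matrix.vecMul_vecMul, Matrix.mul_adjugate, Matrix.vecMul_smul, Matrix.vecMul_one]
    have h2 := congrFun h1 i0
    rw [Pi.smul_apply] at h2
    have h3 : v i0 = 1 := by simp [hv, hi0]
    rw [h3, smul_eq_mul, mul_one] at h2
    exact h2.symm
  rw [hdet, hid]
  refine (Finset.abs_sum_le_sum_abs _ _).trans ?_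
  have h4 : ∀ j ∈ (Finset.univ : Finset (Fin N)), |(Matrix.vecMul v SR) j * SR.adjugate j i0| ≤
      (Z * M) * (((2 * d).factorial : ℝ) * Y ^ (2 * d)) := fun j _ => by
    rw [abs_mul]
    exact mul_le_mul (hcol j) (hadj j) (abs_nonneg _) (by positivity)
  refine (Finset.sum_le_card_nsmul _ _ _ h4).trans ?_
  rw [Finset.card_univ, Fintype.card_fin, nsmul_eq_mul]
  have h5 : (N : ℝ) ≤ ((2 * d : ℕ) : ℝ) := by exact_mod_cast hN2
  have h6 : 0 ≤ (Z * M) * (((2 * d).factorial : ℝ) * Y ^ (2 * d)) := by positivity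
  calc (N : ℝ) * ((Z * M) * (((2 * d).factorial : ℝ) * Y ^ (2 * d)))
      ≤ ((2 * d : ℕ) : ℝ) * ((Z * M) * (((2 * d).factorial : ℝ) * Y ^ (2 * d))) :=
        mul_le_mul_of_nonneg_right h5 h6
    _ = _ := by ring

theorem pcop : Pool.Agent.L0h79.AJ.S_PCOP := by
  intro d z
  set C : ℝ := ((2 * d : ℕ) : ℝ) * ((max 1 |z|) ^ d) * ((2 * d).factorial : ℝ) + 1 with hC
  have hC0 : 0 ≤ ((2 * d : ℕ) : ℝ) * ((max 1 |z|) ^ d) * ((2 * d).factorial : ℝ) := by positivity
  have hC1 : 1 ≤ C := by linarith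
  refine ⟨C⁻¹, by positivity, fun F G Y hY hF hG hFY hGY hcop => ?_⟩
  set M := max |aeval z F| |aeval z G| with hM
  have hM0 : 0 ≤ M := le_max_of_le_left (abs_nonneg _)
  have hY0 : 0 < Y ^ (2 * d) := by positivity
  have hY1 : 1 ≤ Y ^ (2 * d) := one_le_pow₀ hY
  suffices h : 1 ≤ C * Y ^ (2 * d) * M by
    rw [← mul_inv, inv_le_iff_one_le_mul₀ (by positivity)]
    linarith
  rcases Nat.eq_zero_or_pos (F.natDegree + G.natDegree) with h0 | hpos
  · -- constants
    have hF0 : F.natDegree = 0 := by omega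
    have hG0 : G.natDegree = 0 := by omega
    obtain ⟨a, ha⟩ := natDegree_eq_zero.1 hF0
    obtain ⟨b, hb⟩ := natDegree_eq_zero.1 hG0
    have hM1 : 1 ≤ M := by
      by_contra hlt
      rw [not_le] at hlt
      have h1 : |aeval z F| < 1 := lt_of_le_of_lt (le_max_left _ _) hlt
      have h2 : |aeval z G| < 1 := lt_of_le_of_lt (le_max_right _ _) hlt
      rw [← ha, aeval_C] at h1
      rw [← hb, aeval_C] at h2
      have h1' : |a| < 1 := by
        have : |((a : ℤ) : ℝ)| < 1 := h1
        exact_mod_cast this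
      have h2' : |b| < 1 := by
        have : |((b : ℤ) : ℝ)| < 1 := h2
        exact_mod_cast this
      have ha0 : a = 0 := Int.abs_lt_one_iff.1 h1'
      have hb0 : b = 0 := Int.abs_lt_one_iff.1 h2'
      rw [← ha, ← hb, ha0, hb0] at hcop
      simp at hcop
      exact not_isCoprime_zero_zero hcop
    calc (1 : ℝ) ≤ C * Y ^ (2 * d) := one_le_mul_of_one_le_of_one_le hC1 hY1
      _ ≤ C * Y ^ (2 * d) * M := le_mul_of_one_le_right (by positivity) hM1
  · have h1 := det_bound F G z Y d hY hFY hGY hF hG hpos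
    have hres : resultant F G ≠ 0 := by
      intro h0
      have h2 : resultant (F.map (Int.castRingHom ℚ)) (G.map (Int.castRingHom ℚ)) = 0 := by
        have hinj : Function.Injective (Int.castRingHom ℚ) := Int.cast_injective
        rw [natDegree_map_eq_of_injective hinj, natDegree_map_eq_of_injective hinj,
          resultant_map_map, h0, map_zero]
      rw [resultant_eq_zero_iff] at h2
      exact h2.2 hcop
    have h3 : (1 : ℝ) ≤ |((resultant F G : ℤ) : ℝ)| := by
      have := Int.one_le_abs hres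
      exact_mod_cast this
    refine (h3.trans h1).trans ?_
    have h4 : 0 ≤ Y ^ (2 * d) * M := by positivity
    calc _ = (((2 * d : ℕ) : ℝ) * ((max 1 |z|) ^ d) * ((2 * d).factorial : ℝ)) *
          (Y ^ (2 * d) * M) := by ring
      _ ≤ C * (Y ^ (2 * d) * M) := mul_le_mul_of_nonneg_right (by linarith) h4
      _ = _ := by ring

end Pool.Agent.L0h10.AJ
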