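import Pool.Agent.L0h79.AJ.Stm

/-!
# An integer polynomial which is small at a point has an irreducible factor which is small there
-/

set_option autoImplicit false

namespace Pool.Agent.L0h10.AJ

open Polynomial

lemma one_le_const {F : ℤ[X]} (hF : F ≠ 0) (h0 : F.natDegree = 0) (z : ℝ) : 1 ≤ |aeval z F| := by
  obtain ⟨a, ha⟩ := natDegree_eq_zero.1 h0
  have ha0 : a ≠ 0 := by
    rintro rfl
    exact hF (by rw [← ha, C_0])
  rw [← ha, aeval_C]
  have h1 : (1 : ℝ) ≤ |((a : ℤ) : ℝ)| := by exact_mod_cast Int.one_le_abs ha0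
  exact h1

/-- If all irreducible factors of positive degree are larger than `Y`, then the polynomial is larger
than `Y` to the power of its degree. -/
lemma large_of_factors {z Y : ℝ} (hY0 : 0 < Y) (hY1 : Y < 1) (F : ℤ[X]) (hF : F ≠ 0) :
    (∀ G : ℤ[X], Irreducible G → G ∣ F → 1 ≤ G.natDegree → Y < |aeval z G|) →
    1 ≤ F.natDegree → Y ^ F.natDegree < |aeval z F| := by
  induction F using WfDvdMonoid.induction_on_irreducible with
  | zero => exact absurd rfl hF
  | unit u hu =>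
    intro _ h
    rw [natDegree_eq_zero_of_isUnit hu] at h
    omega
  | mul a i ha hi ih =>
    intro hall hdeg
    have hi0 : i ≠ 0 := hi.ne_zero
    have hdm : (i * a).natDegree = i.natDegree + a.natDegree := natDegree_mul hi0 ha
    have ih' := ih ha (fun G hG hGa hG1 => hall G hG (hGa.mul_left i) hG1)
    rw [hdm] at hdeg ⊢
    rw [map_mul, abs_mul]
    rcases Nat.eq_zero_or_pos i.natDegree with h0 | h1
    · have h2 := one_le_const hi0 h0 z
      have h3 := ih' (by omega)
      rw [h0, zero_add]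
      calc Y ^ a.natDegree < |aeval z a| := h3
        _ ≤ |aeval z i| * |aeval z a| := le_mul_of_one_le_left (abs_nonneg _) h2
    · have h2 : Y < |aeval z i| := hall i hi (Dvd.intro _ rfl) h1
      have h3 : Y ^ i.natDegree ≤ Y := pow_le_of_le_one hY0.le hY1.le (by omega)
      have h4 : Y ^ i.natDegree < |aeval z i| := lt_of_le_of_lt h3 h2
      rcases Nat.eq_zero_or_pos a.natDegree with g0 | g1
      · have h5 := one_le_const ha g0 z
        rw [g0, add_zero]
        calc Y ^ i.natDegree < |aeval z i| := h4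
          _ ≤ |aeval z i| * |aeval z a| := le_mul_of_one_le_right (abs_nonneg _) h5
      · have h5 := ih' g1
        rw [pow_add]
        exact mul_lt_mul'' h4 h5 (by positivity) (by positivity)

lemma mahler_le {F : ℤ[X]} {d : ℕ} {B : ℝ} (hd : F.natDegree ≤ d) (hB : 0 ≤ B)
    (h : ∀ i, |(F.coeff i : ℝ)| ≤ B) :
    (F.map (Int.castRingHom ℂ)).mahlerMeasure ≤ ((d : ℝ) + 1) * B := by
  refine (mahlerMeasure_le_sum_norm_coeff _).trans ?_
  rw [Polynomial.sum_def]
  have hsub : (F.map (Int.castRingHom ℂ)).support ⊆ Finset.range (d + 1) := by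
    refine (supp_subset_range_natDegree_succ).trans ?_
    intro i hi
    rw [Finset.mem_range] at hi ⊢
    have := natDegree_map_le (f := Int.castRingHom ℂ) (p := F)
    omega
  refine (Finset.sum_le_sum_of_subset_of_nonneg hsub (fun i _ _ => norm_nonneg _)).trans ?_
  have h1 : ∀ i ∈ Finset.range (d + 1), ‖(F.map (Int.castRingHom ℂ)).coeff i‖ ≤ B := fun i _ => by
    rw [coeff_map]
    have : ‖(Int.castRingHom ℂ) (F.coeff i)‖ = |(F.coeff i : ℝ)| := by
      rw [eq_intCast, Complex.norm_intCast]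
    rw [this]
    exact h i
  refine (Finset.sum_le_card_nsmul _ _ _ h1).trans ?_
  rw [Finset.card_range, nsmul_eq_mul]
  push_cast
  exact le_rfl

lemma coeff_factor_le {F G : ℤ[X]} {d : ℕ} {B : ℝ} (hF : F ≠ 0) (hd : F.natDegree ≤ d) (hB : 0 ≤ B)
    (h : ∀ i, |(F.coeff i : ℝ)| ≤ B) (hG : G ∣ F) (i : ℕ) :
    |(G.coeff i : ℝ)| ≤ (2 ^ d * ((d : ℝ) + 1)) * B := by
  obtain ⟨k, hk⟩ := hG
  have hk0 : k ≠ 0 := by
    rintro rfl
    exact hF (by rw [hk, mul_zero])
  have hG0 : G ≠ 0 := by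
    rintro rfl
    exact hF (by rw [hk, zero_mul])
  have h1 := norm_coeff_le_choose_mul_mahlerMeasure_of_one_le_mahlerMeasure i
    (G.map (Int.castRingHom ℂ)) (k.map (Int.castRingHom ℂ)) (one_le_mahlerMeasure_of_ne_zero hk0)
  rw [← Polynomial.map_mul, ← hk, coeff_map] at h1
  have h2 : ‖(Int.castRingHom ℂ) (G.coeff i)‖ = |(G.coeff i : ℝ)| := by
    rw [eq_intCast, Complex.norm_intCast]
  rw [h2] at h1
  refine h1.trans ?_
  have h3 := mahler_le hd hB h
  have hGd : (G.map (Int.castRingHom ℂ)).natDegree ≤ d := by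
    have h4 := natDegree_map_le (f := Int.castRingHom ℂ) (p := G)
    have h5 : F.natDegree = G.natDegree + k.natDegree := by rw [hk, natDegree_mul hG0 hk0]
    omega
  have h6 : (((G.map (Int.castRingHom ℂ)).natDegree.choose i : ℕ) : ℝ) ≤ 2 ^ d := by
    have h7 := Nat.choose_le_two_pow (G.map (Int.castRingHom ℂ)).natDegree i
    have h8 : 2 ^ (G.map (Int.castRingHom ℂ)).natDegree ≤ 2 ^ d := Nat.pow_le_pow_right (by norm_num) hGd
    exact_mod_cast h7.trans h8
  calc _ ≤ 2 ^ d * (((d : ℝ) + 1) * B) :=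
        mul_le_mul h6 h3 (mahlerMeasure_nonneg _) (by positivity)
    _ = _ := by ring

theorem pfac : Pool.Agent.L0h79.AJ.S_PFAC := by
  intro d hd
  have hc : (1 : ℝ) ≤ 2 ^ d * ((d : ℝ) + 1) := by
    have h1 : (1 : ℝ) ≤ 2 ^ d := one_le_pow₀ (by norm_num)
    have h2 : (1 : ℝ) ≤ (d : ℝ) + 1 := by
      have : (0 : ℝ) ≤ d := Nat.cast_nonneg d
      linarith
    exact one_le_mul_of_one_le_of_one_le h1 h2
  refine ⟨2 ^ d * ((d : ℝ) + 1), hc, fun F z B Y hB hY0 hY1 hF hFd hFB hFz => ?_⟩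
  have hex : ∃ G : ℤ[X], Irreducible G ∧ G ∣ F ∧ 1 ≤ G.natDegree ∧ |aeval z G| ≤ Y := by
    by_contra hno
    have hall : ∀ G : ℤ[X], Irreducible G → G ∣ F → 1 ≤ G.natDegree → Y < |aeval z G| := by
      intro G h1 h2 h3
      by_contra h4
      exact hno ⟨G, h1, h2, h3, not_lt.1 h4⟩
    rcases Nat.eq_zero_or_pos F.natDegree with h0 | h1
    · have h2 := one_le_const hF h0 z
      have h3 : Y ^ d < 1 := pow_lt_one₀ hY0.le hY1 (by omega)
      linarith
    · have h2 := large_of_factors hY0 hY1 F hF hall h1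
      have h3 : Y ^ d ≤ Y ^ F.natDegree := pow_le_pow_of_le_one hY0.le hY1.le hFd
      linarith
  obtain ⟨G, hG, hGF, hG1, hGz⟩ := hex
  have hGd : G.natDegree ≤ d := (natDegree_le_of_dvd hGF hF).trans hFd
  exact ⟨G, hG, hG.isPrimitive (by omega), hG1, hGd,
    fun i => coeff_factor_le hF hFd (by linarith) hFB hGF i, hGz⟩

end Pool.Agent.L0h10.AJ
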