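import Pool.Agent.L0h10.AJ.PCOP
import Pool.Agent.L0h10.AJ.PFAC
import Pool.Agent.L0h79.AJ.Stm

/-!
# Integer polynomials which are small at a point at all scales
-/

set_option autoImplicit false

namespace Pool.Agent.L0h10.AJ

open Polynomial Filter Topology
open Pool.Agent.TH932.Germs (UU)
open Pool.Agent.L0h79.AJ (S_PCOP S_PFAC S_PGLUE)

/-- the property of one scale -/
def GoodAt (d : ℕ) (K z H : ℝ) (N : ℕ) : Prop :=
  ∃ F : ℤ[X], F ≠ 0 ∧ F.natDegree ≤ d ∧ (∀ i, |(F.coeff i : ℝ)| ≤ Real.exp (H * N)) ∧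
    |aeval z F| ≤ Real.exp (-(K * (H + 1) * N))

/-- all large scales are good -/
lemma good_large {d : ℕ} {K z H : ℝ}
    (h : ∀ N : ℕ → ℕ, (∀ n, 2 ≤ N n) → Tendsto N atTop atTop → ∃ F : ℕ → Polynomial ℤ,
      ∀ᶠ n in (UU : Filter ℕ), F n ≠ 0 ∧ (F n).natDegree ≤ d ∧
        (∀ i, |((F n).coeff i : ℝ)| ≤ Real.exp (H * N n)) ∧
        |Polynomial.aeval z (F n)| ≤ Real.exp (-(K * (H + 1) * N n))) :
    ∀ᶠ N : ℕ in atTop, GoodAt d K z H N := by
  by_contra hno
  have hfr : ∃ᶠ N : ℕ in atTop, ¬ GoodAt d K z H N ∧ 2 ≤ N := by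
    have h1 : ∃ᶠ N : ℕ in atTop, ¬ GoodAt d K z H N := by
      rwa [Filter.not_eventually] at hno
    exact h1.and_eventually (eventually_ge_atTop 2)
  obtain ⟨φ, hφ, hbad⟩ := extraction_of_frequently_atTop hfr
  obtain ⟨F, hF⟩ := h φ (fun n => (hbad n).2) hφ.tendsto_atTop
  obtain ⟨n, hn⟩ := hF.exists
  exact (hbad n).1 ⟨F n, hn⟩

/-- Two irreducible primitive polynomials which are not coprime over the rationals have the same
absolute value at every point. -/
lemma abs_eq_of_not_coprime {F G : ℤ[X]} (hF : Irreducible F) (hG : Irreducible G)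
    (hFp : F.IsPrimitive) (hGp : G.IsPrimitive)
    (h : ¬ IsCoprime (F.map (Int.castRingHom ℚ)) (G.map (Int.castRingHom ℚ))) (z : ℝ) :
    |aeval z G| = |aeval z F| := by
  have hFQ : Irreducible (F.map (Int.castRingHom ℚ)) :=
    (IsPrimitive.Int.irreducible_iff_irreducible_map_cast hFp).1 hF
  have hGQ : Irreducible (G.map (Int.castRingHom ℚ)) :=
    (IsPrimitive.Int.irreducible_iff_irreducible_map_cast hGp).1 hG
  have hdvd : F.map (Int.castRingHom ℚ) ∣ G.map (Int.castRingHom ℚ) := by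
    rcases hFQ.isCoprime_or_dvd (G.map (Int.castRingHom ℚ)) with h1 | h1
    · exact absurd h1 h
    · exact h1
  have hdvd' : F ∣ G := (IsPrimitive.Int.dvd_iff_map_cast_dvd_map_cast _ _ hFp).2 hdvd
  obtain ⟨u, hu⟩ := hdvd'
  have hunit : IsUnit u := by
    rcases hG.isUnit_or_isUnit hu with h1 | h1
    · exact absurd h1 hF.not_isUnit
    · exact h1
  obtain ⟨r, hr, hru⟩ := Polynomial.isUnit_iff.1 hunit
  have hr1 : |((r : ℤ) : ℝ)| = 1 := by
    rcases Int.isUnit_iff.1 hr with rfl | rfl <;> simp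
  rw [hu, map_mul, abs_mul, ← hru, aeval_C]
  have : |(algebraMap ℤ ℝ) r| = 1 := hr1
  rw [this, mul_one]

theorem pglue (h1 : S_PCOP) (h2 : S_PFAC) : S_PGLUE := by
  intro d
  rcases Nat.eq_zero_or_pos d with rfl | hd
  · refine ⟨1, zero_le_one, fun z H hH h => ?_⟩
    exfalso
    have h3 := good_large h
    obtain ⟨N, ⟨F, hF, hF0, -, hFz⟩, hN⟩ := (h3.and (eventually_ge_atTop 1)).exists
    have h4 := one_le_const hF (by omega) z
    have h5 : Real.exp (-(1 * (H + 1) * N)) < 1 := by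
      rw [Real.exp_lt_one_iff]
      have : (1 : ℝ) ≤ N := by exact_mod_cast hN
      have : 0 < 1 * (H + 1) * (N : ℝ) := by positivity
      linarith
    linarith
  obtain ⟨c, hc, hfac⟩ := h2 d hd
  have hd' : (0 : ℝ) < d := by exact_mod_cast hd
  refine ⟨d * (4 * d + 1), by positivity, fun z H hH h => ?_⟩
  obtain ⟨c', hc', hcop⟩ := h1 d z
  -- irreducible polynomials at all large scales
  have hgood : ∀ᶠ N : ℕ in atTop, ∃ G : ℤ[X], Irreducible G ∧ G.IsPrimitive ∧ 1 ≤ G.natDegree ∧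
      G.natDegree ≤ d ∧ (∀ i, |(G.coeff i : ℝ)| ≤ c * Real.exp (H * N)) ∧
      |aeval z G| ≤ Real.exp (-((4 * d + 1) * (H + 1) * N)) := by
    filter_upwards [good_large h, eventually_ge_atTop 1] with N hN hN1
    obtain ⟨F, hF, hFd, hFc, hFz⟩ := hN
    have hN1' : (1 : ℝ) ≤ N := by exact_mod_cast hN1
    have hpos : 0 < (4 * (d : ℝ) + 1) * (H + 1) * N := by positivity
    refine hfac F z (Real.exp (H * N)) (Real.exp (-((4 * d + 1) * (H + 1) * N)))
      (Real.one_le_exp (by positivity)) (Real.exp_pos _) (by rw [Real.exp_lt_one_iff]; linarith)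
      hF hFd hFc ?_
    rw [← Real.exp_nat_mul]
    refine hFz.trans (Real.exp_le_exp.2 (le_of_eq ?_))
    ring
  -- two consecutive ones are not coprime
  obtain ⟨N0, hN0⟩ := eventually_atTop.1 hgood
  choose! G hGi hGp hG1 hGd hGc hGz using hN0
  have hbig : ∀ᶠ N : ℕ in atTop, c ^ (2 * d) / c' < Real.exp ((H + 1 + 4 * d) * N) := by
    have h3 : Tendsto (fun N : ℕ => Real.exp ((H + 1 + 4 * d) * N)) atTop atTop := by
      refine Real.tendsto_exp_atTop.comp ?_
      exact Tendsto.const_mul_atTop (by positivity) tendsto_natCast_atTop_atTop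
    exact h3.eventually_gt_atTop _
  obtain ⟨N1, hN1⟩ := eventually_atTop.1 hbig
  set M := max (max N0 N1) 1 with hM
  have hstep : ∀ N, M ≤ N → |aeval z (G (N + 1))| = |aeval z (G N)| := by
    intro N hN
    have hNN0 : N0 ≤ N := ((le_max_left _ _).trans (le_max_left _ _)).trans hN
    have hNN1 : N1 ≤ N := ((le_max_right _ _).trans (le_max_left _ _)).trans hN
    have hNN2 : 1 ≤ N := (le_max_right _ _).trans hN
    have hNR : (1 : ℝ) ≤ N := by exact_mod_cast hNN2
    refine abs_eq_of_not_coprime (hGi N hNN0) (hGi (N + 1) (by omega)) (hGp N hNN0)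
      (hGp (N + 1) (by omega)) (fun hco => ?_) z
    have hX : 1 ≤ c * Real.exp (H * ((N + 1 : ℕ) : ℝ)) :=
      one_le_mul_of_one_le_of_one_le hc (Real.one_le_exp (by positivity))
    have hle : Real.exp (H * N) ≤ Real.exp (H * ((N + 1 : ℕ) : ℝ)) := by
      refine Real.exp_le_exp.2 (mul_le_mul_of_nonneg_left ?_ hH)
      push_cast
      linarith
    have h3 := hcop (G N) (G (N + 1)) (c * Real.exp (H * ((N + 1 : ℕ) : ℝ))) hX (hGd N hNN0)
      (hGd (N + 1) (by omega))
      (fun i => (hGc N hNN0 i).trans (mul_le_mul_of_nonneg_left hle (by linarith)))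
      (fun i => hGc (N + 1) (by omega) i) hco
    have h4 : max |aeval z (G N)| |aeval z (G (N + 1))| ≤
        Real.exp (-((4 * d + 1) * (H + 1) * N)) := by
      refine max_le (hGz N hNN0) ((hGz (N + 1) (by omega)).trans (Real.exp_le_exp.2 ?_))
      have : 0 < (4 * (d : ℝ) + 1) * (H + 1) := by positivity
      push_cast
      nlinarith
    have h5 := h3.trans h4
    -- contradiction
    rw [mul_pow, ← Real.exp_nat_mul, mul_inv, ← Real.exp_neg] at h5
    have hcpos : 0 < c ^ (2 * d) := by positivity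
    have h6 : c' * Real.exp (-(((2 * d : ℕ) : ℝ) * (H * ((N + 1 : ℕ) : ℝ)))) ≤
        c ^ (2 * d) * Real.exp (-((4 * d + 1) * (H + 1) * N)) := by
      have h7 := mul_le_mul_of_nonneg_left h5 hcpos.le
      calc c' * Real.exp (-(((2 * d : ℕ) : ℝ) * (H * ((N + 1 : ℕ) : ℝ))))
          = c ^ (2 * d) * (c' * ((c ^ (2 * d))⁻¹ *
            Real.exp (-(((2 * d : ℕ) : ℝ) * (H * ((N + 1 : ℕ) : ℝ)))))) := by
            field_simp
        _ ≤ _ := h7
    have h8 : Real.exp (-(4 * d * H * N)) ≤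
        Real.exp (-(((2 * d : ℕ) : ℝ) * (H * ((N + 1 : ℕ) : ℝ)))) := by
      refine Real.exp_le_exp.2 ?_
      push_cast
      have : 0 ≤ (d : ℝ) * H := by positivity
      nlinarith
    have h9 : c' * Real.exp (-(4 * d * H * N)) ≤
        c ^ (2 * d) * Real.exp (-((4 * d + 1) * (H + 1) * N)) :=
      (mul_le_mul_of_nonneg_left h8 hc'.le).trans h6
    have h10 := hN1 N hNN1
    rw [div_lt_iff₀ hc'] at h10
    have h11 : Real.exp (-(4 * d * H * N)) = Real.exp ((H + 1 + 4 * d) * N) *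
        Real.exp (-((4 * d + 1) * (H + 1) * N)) := by
      rw [← Real.exp_add]
      congr 1
      ring
    rw [h11] at h9
    have h12 : c ^ (2 * d) * Real.exp (-((4 * d + 1) * (H + 1) * N)) <
        Real.exp ((H + 1 + 4 * d) * N) * c' * Real.exp (-((4 * d + 1) * (H + 1) * N)) :=
      mul_lt_mul_of_pos_right h10 (Real.exp_pos _)
    linarith [h9, h12, mul_comm c' (Real.exp ((H + 1 + 4 * d) * N) *
      Real.exp (-((4 * d + 1) * (H + 1) * N)))]
  have hconst : ∀ k : ℕ, |aeval z (G (M + k))| = |aeval z (G M)| := by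
    intro k
    induction k with
    | zero => rfl
    | succ k ih => rw [← ih, ← add_assoc]; exact hstep _ (by omega)
  have hMN0 : N0 ≤ M := (le_max_left _ _).trans (le_max_left _ _)
  refine ⟨G M, (hGi M hMN0).ne_zero, hGd M hMN0, ?_⟩
  have hlim : Tendsto (fun k : ℕ => Real.exp (-((4 * d + 1) * (H + 1) * ((M + k : ℕ) : ℝ))))
      atTop (𝓝 0) := by
    refine Real.tendsto_exp_neg_atTop_nhds_zero.comp ?_
    refine Tendsto.const_mul_atTop (by positivity) ?_
    refine tendsto_natCast_atTop_atTop.comp ?_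
    exact tendsto_atTop_mono (fun k => Nat.le_add_left k M) tendsto_id
  have h13 : |aeval z (G M)| ≤ 0 :=
    ge_of_tendsto' hlim fun k => by
      rw [← hconst k]
      exact hGz (M + k) (by omega)
  exact abs_nonpos_iff.1 h13

end Pool.Agent.L0h10.AJ
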